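import Pool.Agent.X84.Hs.Final

/-!
# MP_1494ae_an: `C(f)` does not have the shadowing property for Morse-Smale diffeomorphisms

For every closed manifold `M` of dimension at least one and every `C¹` diffeomorphism `f` of `M`
whose nonwandering set is a finite set of hyperbolic periodic points (in particular for every
Morse-Smale diffeomorphism; the transversality of the invariant manifolds is not needed) the map
`C(f)` induced on the hyperspace of subcontinua does not have the shadowing property.

Proof. Some periodic point `q` is a sink (Baire), and an iterate `g` of `f` fixes it. Near `q` there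
are two arcs `E₁`, `E₂` joining a point to its image under `g`, with disjoint orbits `L₁`, `L₂`. Let
`Λ` be the complement of the basin of `q` in the component of `q`; it is connected. Then
`Λ ∪ L₁ ∪ L₂ ∪ {q}` is a loop. Cut `L₁` near `q`, iterate until the gap has nearly closed, jump to
the closed loop, then to the loop cut near `Λ`, and iterate: a continuum which follows this
pseudo-orbit would have to contain a part of `L₁` isolated from both sides.
-/

set_option autoImplicit false

open scoped Manifold ContDiff
open Pool.Agent.X84.Hs

namespace Pool.Agent.Results.MP_1494ae_an.NoShadowing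

variable (n : ℕ) {M : Type*} [MetricSpace M] [ChartedSpace (EuclideanSpace ℝ (Fin n)) M]

/-- `f` is a `C¹` diffeomorphism. -/
def IsDiffeo (f : M ≃ₜ M) : Prop :=
  ContMDiff (𝓡 n) (𝓡 n) 1 f ∧ ContMDiff (𝓡 n) (𝓡 n) 1 f.symm

/-- The nonwandering set of `f` is finite and consists of hyperbolic periodic points. -/
def FiniteHyperbolic (f : M → M) : Prop :=
  (NonWandering f).Finite ∧ ∀ p ∈ NonWandering f, HyperbolicPeriodic (n := n) f p

variable (M)

theorem result (hn : 1 ≤ n) [CompactSpace M] [Nonempty M] [IsManifold (𝓡 n) 1 M] (f : M ≃ₜ M)
    (hf : IsDiffeo n f) (hΩ : FiniteHyperbolic n f) : ¬ Shadowing (induced f f.continuous) :=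
  Pool.Agent.X84.Hs.main hn ⟨f.toEquiv, hf.1, hf.2⟩ hΩ.1 hΩ.2

end Pool.Agent.Results.MP_1494ae_an.NoShadowing
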